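import Pool.Agent.H530R3.Ph.Main

/-!
# How dense must a random oracle be for the polynomial hierarchy to be infinite?

Choose a random oracle `A`: each string `x` is put into `A` independently of the others with
probability `p |x|`, where the densities `p n` are arbitrary numbers in `[0, 1]`. Let
`lam p n = 2 ^ n * min (p n) (1 - p n)`, the expected number of the strings of length `n` with the
less likely bit.

* If `lam p` is not bounded by a polynomial then almost surely, for every `k`, some language in
  `Σ_{k+1}^A` is not in `Σ_k^A/poly`. So the hierarchy is infinite relative to `A`.
* If `lam p` is bounded by a polynomial then almost surely, for every `k`, `Σ_k^A/poly` is the same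
  as `Σ_k/poly` (without any oracle), and `Σ_{k+1}^A` is contained in `Σ_k^A/poly` if and only if
  `Σ_{k+1}` is contained in `Σ_k/poly`.
* So the levels of the (unrelativized) hierarchy are different even nonuniformly if and only if this
  is so relative to random oracles of all densities, if and only if this is so with positive
  probability for one sequence of densities such that `lam p` is bounded by a polynomial.

For `p n = 1 / 2` the first part is the theorem of Håstad, Rossman, Servedio and Tan. Here only
infinitely many lengths need have more than polynomially many strings with the less likely bit, in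
the expectation; for instance `p n = n ^ (log log n) * 2 ^ (- n)` is allowed.

Proof of the first part. Let `P` be a bound for the number of the questions of an algorithm, for
their lengths and for the length of the advice; let `lam p N` be greater than a polynomial in `N`
which is much greater than `P`, let `2 ^ u` be at least `P N` and `n = 8 * u`. The leaves of the
formulas of Håstad, Rossman, Servedio and Tan, of depth `k + 1` and with gates of fan-in `2 ^ O(n)`,
are replaced by conjunctions of `w` statements of the form: this string of length `N` has the less
likely bit, where `w` is the smallest number such that such a conjunction holds with probability at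
most `2 ^ (- 8 * n)`; all these strings exist since `lam p N` is great. The random restrictions are the
ones of the starting library, but for the density of the leaves. The algorithm is right for all
positions of the formula with probability at most `2 ^ (- 2 ^ u)` or so, and this is small enough for
a union bound over the advice.

Proof of the second part. Almost surely `A` differs at polynomially many strings of each length only
from the set of all `x` with `p |x| > 1 / 2`, so all its relevant information fits into the advice.
-/

namespace Pool.Agent.Results.MP_28250c_lc.DensityThreshold

open MeasureTheory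
open Pool.Agent.H591R3.PHG (IsSig)
open Pool.Agent.H530R3.Thr (biasedOracle lam)
open Pool.Agent.H530R3.Adv (PolyBdd WithAdvice)
open Pool.Agent.H530R3.Ph

theorem result :
    (∀ p : ℕ → unitInterval, ¬ PolyBdd (lam p) → ∀ᵐ A ∂(biasedOracle p),
      ∀ k, ∃ L : Set (List Bool), IsSig A (k + 1) L ∧ ¬ WithAdvice (IsSig A k) L) ∧
    (∀ p : ℕ → unitInterval, PolyBdd (lam p) → ∀ᵐ A ∂(biasedOracle p), ∀ k,
      (∀ L : Set (List Bool), WithAdvice (IsSig A k) L ↔ WithAdvice (InSig k) L) ∧
      ((∃ L : Set (List Bool), IsSig A (k + 1) L ∧ ¬ WithAdvice (IsSig A k) L) ↔
        ∃ L : Set (List Bool), InSig (k + 1) L ∧ ¬ WithAdvice (InSig k) L)) ∧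
    ((∀ k, ∃ L : Set (List Bool), InSig (k + 1) L ∧ ¬ WithAdvice (InSig k) L) ↔
      ∀ p : ℕ → unitInterval, ∀ᵐ A ∂(biasedOracle p), ∀ k,
        ∃ L : Set (List Bool), IsSig A (k + 1) L ∧ ¬ WithAdvice (IsSig A k) L) ∧
    ((∀ k, ∃ L : Set (List Bool), InSig (k + 1) L ∧ ¬ WithAdvice (InSig k) L) ↔
      ∃ p : ℕ → unitInterval, PolyBdd (lam p) ∧ 0 < biasedOracle p {A | ∀ k,
        ∃ L : Set (List Bool), IsSig A (k + 1) L ∧ ¬ WithAdvice (IsSig A k) L}) :=
  ⟨fun _ h => ae_infinite h, fun _ h => bounded h, strict_iff,
    fun h => ⟨_, Pool.Agent.H530R3.Adv.polyBdd_zero,
      (strict_iff' Pool.Agent.H530R3.Adv.polyBdd_zero).1 h⟩,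
    fun ⟨_, hp, h⟩ => (strict_iff' hp).2 h⟩

end Pool.Agent.Results.MP_28250c_lc.DensityThreshold
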