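import Pool.Agent.H591R3.PHG.Cover
import Pool.Agent.H591R3.PHG.LangSig
import Pool.Agent.H620R2.Gauge.NonNull
import Pool.Agent.H620R2.GaugeX.NonNullX
import Pool.Agent.H620R2.Gauge2.Null

/-!
# How many oracles collapse the polynomial hierarchy?

For every gauge `f`, the set of the oracles `A` relative to which the polynomial hierarchy
collapses is a null set for `f` if and only if for every `ε > 0` there are infinitely many `N` with
`f N ≤ 2 ^ ((log N) ^ ε)`. The same holds for the set of the oracles relative to which it collapses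
to `P`, for the set of the oracles relative to which it collapses exactly to `NP` (and not to
`P`), and for every set of oracles between one of these families and the set of the `A` with
`Σ_{k+1}^A ⊆ Σ_k^A/poly` for some `k`.
-/

set_option autoImplicit false

namespace Pool.Agent.Results.MP_28250c_lc.GaugeThreshold

open Pool.Agent.NPC Pool.Agent.H620R2.Gauge Pool.Agent.H591R3.PHG

theorem result (f : ℕ → ℝ) :
    (∀ O : Set Oracle,
      ((∀ A : Oracle, (∀ L, IsPSPACE A L → Reduces L {x | A x = true}) → A ∈ O) ∨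
        (∀ A : Oracle, (∀ L, IsEXP A L ∨ IsPSPACE A L → IsZPP A L) →
          (∃ L, IsZPP A L ∧ ¬ IsP A L) → A ∈ O)) →
      (∀ A ∈ O, ∃ k, ∀ L, IsSig A (k + 1) L → IsSigPoly A k L) →
      (Null f O ↔
        ∀ ε : ℝ, 0 < ε → ∃ᶠ N : ℕ in Filter.atTop, f N ≤ 2 ^ (Real.logb 2 N) ^ ε)) ∧
    (Null f {A : Oracle | ∃ k, ∀ L, IsSig A (k + 1) L → IsSig A k L} ↔
      ∀ ε : ℝ, 0 < ε → ∃ᶠ N : ℕ in Filter.atTop, f N ≤ 2 ^ (Real.logb 2 N) ^ ε) ∧
    (Null f {A : Oracle | ∀ L, IsSig A 1 L → IsSig A 0 L} ↔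
      ∀ ε : ℝ, 0 < ε → ∃ᶠ N : ℕ in Filter.atTop, f N ≤ 2 ^ (Real.logb 2 N) ^ ε) ∧
    (Null f {A : Oracle | (∀ L, IsSig A 2 L → IsSig A 1 L) ∧ ∃ L, IsSig A 1 L ∧ ¬ IsSig A 0 L} ↔
      ∀ ε : ℝ, 0 < ε → ∃ᶠ N : ℕ in Filter.atTop, f N ≤ 2 ^ (Real.logb 2 N) ^ ε) := by
  have key : ∀ O : Set Oracle,
      ((∀ A : Oracle, (∀ L, IsPSPACE A L → Reduces L {x | A x = true}) → A ∈ O) ∨
        (∀ A : Oracle, (∀ L, IsEXP A L ∨ IsPSPACE A L → IsZPP A L) →
          (∃ L, IsZPP A L ∧ ¬ IsP A L) → A ∈ O)) →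
      (∀ A ∈ O, ∃ k, ∀ L, IsSig A (k + 1) L → IsSigPoly A k L) →
      (Null f O ↔
        ∀ ε : ℝ, 0 < ε → ∃ᶠ N : ℕ in Filter.atTop, f N ≤ 2 ^ (Real.logb 2 N) ^ ε) := by
    intro O h1 h2
    constructor
    · intro hn
      rcases h1 with h1 | h1
      · intro ε hε
        by_contra hcon
        rw [Filter.not_frequently] at hcon
        exact not_null f ε hε (hcon.mono fun N h => not_le.1 h) O h1 hn
      · by_contra hcon
        exact not_nullT hcon O h1 hn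
    · intro hf
      refine null_of_frequently2 f hf O fun A hA => ?_
      obtain ⟨k, hk⟩ := h2 A hA
      exact ⟨k, hk _ (lang_sig A k)⟩
  have h0 : ∀ (A : Oracle) (L : Set (List Bool)), IsP A L → IsSig A 0 L :=
    fun A L h => IsSig.of_isP h 0
  have h01 : ∀ (A : Oracle) (L : Set (List Bool)), IsSig A 0 L → IsP A L := by
    rintro A L ⟨V, p, hV, hL⟩
    exact ⟨V, hV, hL⟩
  have h1 : ∀ (A : Oracle) (L : Set (List Bool)), IsNP A L ↔ IsSig A 1 L := fun A L => isNP_iff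
  refine ⟨key, key _ (Or.inl ?_) ?_, key _ (Or.inl ?_) ?_, key _ (Or.inr ?_) ?_⟩
  · intro A hA
    exact ⟨0, fun L hL => h0 A L (isP_of_reduces (hA L hL.isPH.isPSPACE))⟩
  · rintro A ⟨k, hk⟩
    exact ⟨k, fun L hL => (hk L hL).isSigPoly⟩
  · intro A hA L hL
    exact h0 A L (isP_of_reduces (hA L hL.isPH.isPSPACE))
  · intro A hA
    exact ⟨0, fun L hL => (hA L hL).isSigPoly⟩
  · intro A hA hZ
    refine ⟨fun L hL => (h1 A L).1 (hA L (Or.inr hL.isPH.isPSPACE)).isNP, ?_⟩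
    obtain ⟨L, hL, hL'⟩ := hZ
    exact ⟨L, (h1 A L).1 hL.isNP, fun h => hL' (h01 A L h)⟩
  · intro A hA
    exact ⟨1, fun L hL => (hA.1 L hL).isSigPoly⟩

end Pool.Agent.Results.MP_28250c_lc.GaugeThreshold
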