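import Pool.Agent.H334R5.Ph.Final

/-!
# Strictness of the polynomial hierarchy: refuting one threshold pattern

Let `k ≥ 1` and let `A` be in `Σ_k`. The statement `x ∉ A` has a `Σ_k` proof for all `x` outside
`A` only if the hierarchy collapses to `Σ_k`. The theorem says that the collapse follows already if
for every list `x₁, …, xₘ` of polynomially many strings outside `A` there is a `Σ_k` proof of the
much weaker statement that not exactly the first `j` of these strings belong to `A`, for one number
`j` of the prover's choice.

Polynomial time is Mathlib's `Turing.TM2ComputableInPolyTime` (through `Pool.Agent.NPC.PolyTime`).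
`Sig`, `SigHard` and `SigRefuter` are in `Pool.Agent.H334R5.Ph.Defs`, and `Pattern` is in
`Pool.Agent.H334R5.Nd.Defs`.
-/

set_option autoImplicit false

namespace Pool.Agent.Results.MP_28250c_lc.PatternRefuter

open Pool.Agent.H334R5.Ph

/-- For every `k` (the level is `k + 1`): all sets in `Σ_{k+1}` have `Σ_{k+1}` refuters of threshold
patterns if and only if `Σ_{k+2} = Σ_{k+1}`; and if only one `Σ_{k+1}`-hard set `A` has such a
refuter, then all levels of the hierarchy are contained in `Σ_{k+1}`. -/
theorem result (k : ℕ) :
    ((∀ A : Set (List Bool), Sig (k + 1) A →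
        ∃ (q : Polynomial ℕ) (R : List (List Bool) → ℕ → Prop), SigRefuter (k + 1) A q R) ↔
      ∀ L : Set (List Bool), Sig (k + 2) L → Sig (k + 1) L) ∧
    ∀ (A : Set (List Bool)) (q : Polynomial ℕ) (R : List (List Bool) → ℕ → Prop),
      SigHard (k + 1) A → SigRefuter (k + 1) A q R →
        ∀ (j : ℕ) (L : Set (List Bool)), Sig j L → Sig (k + 1) L :=
  ⟨refuter_iff k, fun _ _ _ hA hR => collapse_all (collapse_of_refuter k hA hR)⟩

end Pool.Agent.Results.MP_28250c_lc.PatternRefuter
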